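import Pool.Agent.Helper27.FK.Two

/-!
# Theorem F (repeated rates): typed pieces.  Hints: /team-store/FKS.md

Prove each piece as `Pool/Agent/<YourSeat>/FKF/<Piece>.lean` with the same statement (your own
namespace), importing `Pool.Agent.Helper27.FK.Two` (and this file only if you need a statement of
another piece).
-/

open Finset Filter Topology

namespace Pool.Agent.Helper27.FK.St

open Pool.Agent.Helper7.FR Pool.Agent.Helper27.FK

/-- Normalised phases: if `r` is rational with denominator `q` then `2 q θ` is an odd integer. -/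
def NormPhase (r θ : ℝ) : Prop :=
  ∀ s : ℚ, (s : ℝ) = r → ∃ z : ℤ, 2 * (s.den : ℝ) * θ = 2 * z + 1

/-- P0 (easy): phases can be normalised without changing the floors. -/
theorem P0 {r θ : ℝ} (h0 : 0 < r) (h1 : r < 1) (hθ : 0 ≤ θ ∧ θ < 1) :
    ∃ θ' : ℝ, (0 ≤ θ' ∧ θ' < 1) ∧ NormPhase r θ' ∧ ∀ j : ℤ, ⌊(j : ℝ) * r + θ'⌋ = ⌊(j : ℝ) * r + θ⌋ := by
  sorry

/-- P1: every tuple of two-letter type is admissible. -/
theorem P1 {n : ℕ} {r : Fin n → ℝ} (h : TwoLetter r) : Admissible r := by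
  sorry

/-- P2: the structure theorem from the continuous identity along a rational line. -/
theorem P2 {n : ℕ} {r θ : Fin n → ℝ} {v : Fin n → ℤ} {c : ℝ} (h0 : ∀ i, 0 < r i ∧ r i < 1)
    (hs : ∑ i, r i = 1) (hv : v ≠ 0)
    (hH : ∀ i, v i = 0 → ∀ j z : ℤ, θ i + j * r i ≠ z)
    (hstar : ∀ (j : ℤ) (t : ℝ), (∀ i, ∀ z : ℤ, θ i + j * r i + t * v i ≠ z) →
      ∑ i, Int.fract (θ i + j * r i + t * v i) = c) : TwoLetter r := by
  sorry

/-- P3K: the density lemma (limit form of Kronecker's theorem). -/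
theorem P3K {n : ℕ} {ι : Type*} (U : Ultrafilter ι) (r : ι → Fin n → ℝ) (x : Fin n → ℝ)
    (hx : ∀ k : Fin n → ℤ, (∀ᶠ m in U, ∃ z : ℤ, ∑ i, (k i : ℝ) * r m i = z) →
      ∃ z : ℤ, ∑ i, (k i : ℝ) * x i = z) {δ : ℝ} (hδ : 0 < δ) :
    ∀ᶠ m in U, ∃ j : ℤ, ∀ i, ∃ z : ℤ, |x i - j * r m i - z| < δ := by
  sorry

/-- P3L: the limit identity (uses P3K). -/
theorem P3L {n : ℕ} {ι : Type*} (U : Ultrafilter ι) (r θ : ι → Fin n → ℝ) (c : ι → ℝ)
    (hθ : ∀ m i, 0 ≤ θ m i ∧ θ m i < 1)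
    (hc : ∀ m (j : ℤ), ∑ i, Int.fract ((j : ℝ) * r m i + θ m i) = c m) :
    ∃ (θ' : Fin n → ℝ) (c' : ℝ), (∀ i, Tendsto (fun m => θ m i) U (𝓝 (θ' i))) ∧
      ∀ h : Fin n → ℝ, (∀ k : Fin n → ℤ, (∀ᶠ m in U, ∃ z : ℤ, ∑ i, (k i : ℝ) * r m i = z) →
        ∃ z : ℤ, ∑ i, (k i : ℝ) * h i = z) → (∀ i, ∀ z : ℤ, θ' i + h i ≠ z) →
        ∑ i, Int.fract (θ' i + h i) = c' := by
  sorry

/-- P3V: an integer vector orthogonal to `Λ` whose support is as large as possible. -/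
theorem P3V {n : ℕ} (Λ : AddSubgroup (Fin n → ℤ)) :
    ∃ v : Fin n → ℤ, (∀ k ∈ Λ, ∑ i, k i * v i = 0) ∧
      ∀ i, v i = 0 → ∃ Q : ℕ, 0 < Q ∧ Pi.single i (Q : ℤ) ∈ Λ := by
  sorry

/-- P3E: the relations holding eventually hold simultaneously eventually. -/
theorem P3E {n : ℕ} {ι : Type*} (U : Ultrafilter ι) (r : ι → Fin n → ℝ) :
    ∀ᶠ m in U, ∀ k : Fin n → ℤ, (∀ᶠ m' in U, ∃ z : ℤ, ∑ i, (k i : ℝ) * r m' i = z) →
      ∃ z : ℤ, ∑ i, (k i : ℝ) * r m i = z := by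
  sorry

/-- P4: the exceptional set is finite and consists of rational tuples. -/
theorem P4 (n : ℕ) :
    {r : Fin n → ℝ | (∀ i, 0 < r i ∧ r i < 1) ∧ ∑ i, r i = 1 ∧ Admissible r ∧
      ¬ TwoLetter r}.Finite ∧
    ∀ r : Fin n → ℝ, (∀ i, 0 < r i ∧ r i < 1) → ∑ i, r i = 1 → Admissible r → ¬ TwoLetter r →
      ∀ i, ∃ s : ℚ, (s : ℝ) = r i := by
  sorry

end Pool.Agent.Helper27.FK.St
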